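import Pool.Agent.Y773.NV.St1

/-!
# The exact symmetric formula for `|F(1/2+it)|²`
-/

set_option autoImplicit false

open Complex MeasureTheory

namespace Pool.Agent.Y961.NV

open Pool.Agent.Y773 (FEd GG)
open Pool.Agent.Y773.NV

section afe

variable {ι : Type} [Fintype ι]

theorem hp_re (t : ℝ) : (hp t).re = 1 / 2 := by
  simp [hp]

theorem hp_im (t : ℝ) : (hp t).im = t := by
  simp [hp]

theorem pt_re (c v : ℝ) : (pt c v).re = c := by
  simp [pt]

theorem pt_im (c v : ℝ) : (pt c v).im = v := by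
  simp [pt]

theorem conj_hp (t : ℝ) : (starRingEnd ℂ) (hp t) = 1 - hp t := by
  unfold hp
  simp only [map_add, map_mul, conj_ofReal, conj_I, map_div₀, map_one, map_ofNat]
  ring

theorem gm_ne_zero (e : ι → ℕ) {s : ℂ} (hs : 0 < s.re) : gm e s ≠ 0 := by
  unfold gm
  refine Finset.prod_ne_zero_iff.2 fun i _ => ?_
  apply Complex.Gammaℝ_ne_zero_of_re_pos
  rw [add_re, natCast_re]
  positivity

/-- the function in the formula -/
noncomputable def HH (R : ℝ) (e : ι → ℕ) (F : ℂ → ℂ) (t : ℝ) (w : ℂ) : ℂ :=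
  F (hp t + w) * (starRingEnd ℂ) (F (hp t + (starRingEnd ℂ) w)) * (R : ℂ) ^ w * gr e t w

theorem GG_eq (R : ℝ) (e : ι → ℕ) (s : ℂ) : GG R e s = (R : ℂ) ^ (s / 2) * gm e s := rfl

/-- the product of the completed functions -/
theorem PP_eq {R : ℝ} (hR : 0 < R) (e : ι → ℕ) (F : ℂ → ℂ) (t : ℝ) (w : ℂ) :
    (GG R e (hp t + w) * F (hp t + w)) * (starRingEnd ℂ) (GG R e (hp t + (starRingEnd ℂ) w) *
      F (hp t + (starRingEnd ℂ) w)) =
    ((R : ℂ) ^ ((1 : ℂ) / 2) * (gm e (hp t) * (starRingEnd ℂ) (gm e (hp t)))) * HH R e F t w := by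
  have hRc : (R : ℂ) ≠ 0 := by exact_mod_cast hR.ne'
  have hg : gm e (hp t) ≠ 0 := gm_ne_zero e (by rw [hp_re]; norm_num)
  have hg' : (starRingEnd ℂ) (gm e (hp t)) ≠ 0 := by simpa using hg
  have h1 : (starRingEnd ℂ) ((R : ℂ) ^ ((hp t + (starRingEnd ℂ) w) / 2)) =
      (R : ℂ) ^ ((1 - hp t + w) / 2) := by
    have h := Complex.conj_cpow (R : ℂ) ((starRingEnd ℂ) ((hp t + (starRingEnd ℂ) w) / 2))
      (by rw [Complex.arg_ofReal_of_nonneg hR.le]; exact Real.pi_pos.ne)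
    rw [conj_conj] at h
    rw [← h, conj_ofReal]
    congr 1
    simp only [map_div₀, map_add, conj_conj, conj_hp, map_ofNat]
  have h2 : (R : ℂ) ^ ((hp t + w) / 2) * (R : ℂ) ^ ((1 - hp t + w) / 2) =
      (R : ℂ) ^ ((1 : ℂ) / 2) * (R : ℂ) ^ w := by
    rw [← Complex.cpow_add _ _ hRc, ← Complex.cpow_add _ _ hRc]
    congr 1
    ring
  have h3 : gr e t w * (gm e (hp t) * (starRingEnd ℂ) (gm e (hp t))) =
      gm e (hp t + w) * (starRingEnd ℂ) (gm e (hp t + (starRingEnd ℂ) w)) := by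
    unfold gr
    field_simp
  rw [GG_eq, GG_eq, map_mul, map_mul, h1]
  unfold HH
  calc (R : ℂ) ^ ((hp t + w) / 2) * gm e (hp t + w) * F (hp t + w) *
      ((R : ℂ) ^ ((1 - hp t + w) / 2) * (starRingEnd ℂ) (gm e (hp t + (starRingEnd ℂ) w)) *
        (starRingEnd ℂ) (F (hp t + (starRingEnd ℂ) w)))
      = ((R : ℂ) ^ ((hp t + w) / 2) * (R : ℂ) ^ ((1 - hp t + w) / 2)) *
        (gm e (hp t + w) * (starRingEnd ℂ) (gm e (hp t + (starRingEnd ℂ) w))) *
        (F (hp t + w) * (starRingEnd ℂ) (F (hp t + (starRingEnd ℂ) w))) := by ring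
    _ = _ := by rw [h2, ← h3]; ring

/-- evenness -/
theorem HH_even {R : ℝ} (hR : 0 < R) {e : ι → ℕ} {F : ℂ → ℂ} (hF : FEd R e F) (t : ℝ) {w : ℂ}
    (h1 : t + w.im ≠ 0) (h2 : t - w.im ≠ 0) : HH R e F t (-w) = HH R e F t w := by
  obtain ⟨w0, hw0, hfe⟩ := hF.fe
  have hRc : (R : ℂ) ≠ 0 := by exact_mod_cast hR.ne'
  have hg : gm e (hp t) ≠ 0 := gm_ne_zero e (by rw [hp_re]; norm_num)
  have hg' : (starRingEnd ℂ) (gm e (hp t)) ≠ 0 := by simpa using hg
  have hK : (R : ℂ) ^ ((1 : ℂ) / 2) * (gm e (hp t) * (starRingEnd ℂ) (gm e (hp t))) ≠ 0 :=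
    mul_ne_zero (by rw [Ne, Complex.cpow_eq_zero_iff]; tauto) (mul_ne_zero hg hg')
  apply mul_left_cancel₀ hK
  rw [← PP_eq hR, ← PP_eq hR]
  have e1 : 1 - (starRingEnd ℂ) (hp t + w) = hp t + (starRingEnd ℂ) (-w) := by
    rw [map_add, map_neg, conj_hp]; ring
  have e2 : 1 - (starRingEnd ℂ) (hp t + (starRingEnd ℂ) w) = hp t + -w := by
    rw [map_add, conj_conj, conj_hp]; ring
  have f1 := hfe (hp t + w) (by rw [add_im, hp_im]; exact h1)
  have f2 := hfe (hp t + (starRingEnd ℂ) w) (by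
    rw [add_im, hp_im, conj_im]; exact h2)
  rw [e1] at f1
  rw [e2] at f2
  rw [f1, f2]
  simp only [map_mul, conj_conj]
  have hw : w0 * (starRingEnd ℂ) w0 = 1 := by
    rw [mul_conj, normSq_eq_norm_sq, hw0]; norm_num
  linear_combination (-(GG R e (hp t + -w) * F (hp t + -w) *
    ((starRingEnd ℂ) (GG R e (hp t + (starRingEnd ℂ) (-w))) *
      (starRingEnd ℂ) (F (hp t + (starRingEnd ℂ) (-w)))))) * hw

theorem HH_zero {R : ℝ} (e : ι → ℕ) (F : ℂ → ℂ) (t : ℝ) :
    HH R e F t 0 = F (hp t) * (starRingEnd ℂ) (F (hp t)) := by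
  have hg : gm e (hp t) ≠ 0 := gm_ne_zero e (by rw [hp_re]; norm_num)
  have hg' : (starRingEnd ℂ) (gm e (hp t)) ≠ 0 := by simpa using hg
  unfold HH gr
  rw [map_zero, add_zero, Complex.cpow_zero, mul_one, div_self (mul_ne_zero hg hg'), mul_one]

theorem conj_diff {F : ℂ → ℂ} (hF : Differentiable ℂ F) (t : ℝ) :
    Differentiable ℂ (fun w => (starRingEnd ℂ) (F (hp t + (starRingEnd ℂ) w))) := by
  intro w
  have h1 : DifferentiableAt ℂ (fun z => F (hp t + z)) ((starRingEnd ℂ) w) :=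
    (hF.comp (by fun_prop : Differentiable ℂ (fun z => hp t + z))) _
  have h2 := h1.conj_conj
  rw [conj_conj] at h2
  exact h2

/-- the line integrals are odd -/
theorem JJ_odd {R : ℝ} (hR : 0 < R) {e : ι → ℕ} {F : ℂ → ℂ} (hF : FEd R e F) (t : ℝ) :
    JJ 1 (HH R e F t) (-(1 / 4)) = -JJ 1 (HH R e F t) (1 / 4) := by
  unfold JJ
  rw [← integral_neg_eq_self, ← integral_neg]
  apply integral_congr_ae
  have h0 : ∀ᵐ v : ℝ, v ∉ ({t, -t} : Set ℝ) :=
    (Set.to_countable ({t, -t} : Set ℝ)).ae_notMem volume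
  filter_upwards [h0] with v hv
  have e1 : pt (-(1 / 4)) (-v) = -pt (1 / 4) v := by
    unfold pt
    push_cast
    ring
  have h1 : t + (pt (1 / 4) v).im ≠ 0 := by
    rw [pt_im]
    intro h
    apply hv
    right
    simp only [Set.mem_singleton_iff]
    linarith
  have h2 : t - (pt (1 / 4) v).im ≠ 0 := by
    rw [pt_im]
    intro h
    apply hv
    left
    linarith
  rw [e1, HH_even hR hF t h1 h2, neg_sq, pow_one, pow_one, div_neg]

end afe

theorem t_afe (hRES : St_RES) (_ : St_SHIFT) (hGAM : St_GAM) : St_AFE := by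
  intro ι _ R e F hR hF hgr t c hc hc1
  obtain ⟨C, A, hCA⟩ := hgr
  obtain ⟨CG, hCG1, hCG⟩ := hGAM ι |t| (abs_nonneg t)
  obtain ⟨hgd, -, hgb⟩ := hCG e t hF.he le_rfl
  have hRc : (R : ℂ) ≠ 0 := by exact_mod_cast hR.ne'
  have hC0 : 0 ≤ C := by
    have h := hCA 0 (by norm_num) (by norm_num)
    rw [zero_im, abs_zero, mul_zero, Real.exp_zero, mul_one] at h
    exact (norm_nonneg _).trans h
  -- differentiability
  have hdiff : ∀ b : ℝ, DifferentiableOn ℂ (HH R e F t) (strip (-1 / 2) b) := by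
    intro b
    unfold HH
    refine DifferentiableOn.mul (DifferentiableOn.mul (DifferentiableOn.mul ?_ ?_) ?_) ?_
    · exact (hF.diff.comp (by fun_prop : Differentiable ℂ (fun z => hp t + z))).differentiableOn
    · exact (conj_diff hF.diff t).differentiableOn
    · intro w _
      exact ((differentiableAt_id).const_cpow (Or.inl hRc)).differentiableWithinAt
    · exact hgd.mono fun w hw => hw.1
  -- growth
  have hgrow : Grow (HH R e F t) (-1 / 4) 1
      ((C * Real.exp (|A| * |t|)) * (C * Real.exp (|A| * |t|)) * Real.exp |Real.log R| * CG)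
      (2 * |A|) := by
    intro w hw1 hw2
    have hb : ∀ z : ℂ, z.re = 1 / 2 + w.re → |z.im| ≤ |t| + |w.im| →
        ‖F z‖ ≤ C * Real.exp (|A| * |t|) * Real.exp (|A| * |w.im|) := by
      intro z hz1 hz2
      have h1 := hCA z (by rw [hz1]; linarith) (by rw [hz1]; linarith)
      refine h1.trans ?_
      rw [mul_assoc, ← Real.exp_add]
      apply mul_le_mul_of_nonneg_left _ hC0
      apply Real.exp_le_exp.2
      calc A * |z.im| ≤ |A| * |z.im| := by gcongr; exact le_abs_self A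
        _ ≤ |A| * (|t| + |w.im|) := by gcongr
        _ = _ := by ring
    have h1 := hb (hp t + w) (by rw [add_re, hp_re]) (by rw [add_im, hp_im]; exact abs_add_le _ _)
    have h2 := hb (hp t + (starRingEnd ℂ) w) (by rw [add_re, hp_re, conj_re]) (by
      rw [add_im, hp_im, conj_im]
      refine (abs_add_le _ _).trans ?_
      rw [abs_neg])
    have h3 : ‖(R : ℂ) ^ w‖ ≤ Real.exp |Real.log R| := by
      rw [Complex.norm_cpow_eq_rpow_re_of_pos hR, Real.rpow_def_of_pos hR]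
      apply Real.exp_le_exp.2
      have h4 : |w.re| ≤ 1 := by rw [abs_le]; constructor <;> linarith
      calc Real.log R * w.re ≤ |Real.log R * w.re| := le_abs_self _
        _ = |Real.log R| * |w.re| := abs_mul _ _
        _ ≤ |Real.log R| * 1 := by gcongr
        _ = _ := mul_one _
    have h4 := hgb w (by linarith) hw2
    unfold HH
    rw [norm_mul, norm_mul, norm_mul, RCLike.norm_conj]
    calc ‖F (hp t + w)‖ * ‖F (hp t + (starRingEnd ℂ) w)‖ * ‖(R : ℂ) ^ w‖ * ‖gr e t w‖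
        ≤ (C * Real.exp (|A| * |t|) * Real.exp (|A| * |w.im|)) *
          (C * Real.exp (|A| * |t|) * Real.exp (|A| * |w.im|)) * Real.exp |Real.log R| * CG := by
          gcongr
      _ = _ := by
          have : Real.exp (2 * |A| * |w.im|) = Real.exp (|A| * |w.im|) * Real.exp (|A| * |w.im|) := by
            rw [← Real.exp_add]; congr 1; ring
          rw [this]
          ring
  have hgrow' : ∀ r : ℝ, r ≤ 1 → Grow (HH R e F t) (-(1 / 4)) r
      ((C * Real.exp (|A| * |t|)) * (C * Real.exp (|A| * |t|)) * Real.exp |Real.log R| * CG)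
      (2 * |A|) := by
    intro r hr w hw1 hw2
    exact hgrow w (by linarith) (hw2.trans hr)
  have hr1 := (hRES (-1 / 2) 2 (-(1 / 4)) c _ _ (HH R e F t) (by norm_num) (by norm_num) hc
    (by linarith) (hdiff 2) (hgrow' c hc1)).1
  have hr2 := (hRES (-1 / 2) 2 (-(1 / 4)) (1 / 4) _ _ (HH R e F t) (by norm_num) (by norm_num)
    (by norm_num) (by norm_num) (hdiff 2) (hgrow' (1 / 4) (by norm_num))).1
  have ho := JJ_odd hR hF t
  have hz := HH_zero (R := R) e F t
  rw [← hz]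
  show _ = JJ 1 (HH R e F t) c
  linear_combination (1 / 2 : ℂ) * hr2 - hr1 - (1 / 2 : ℂ) * ho

end Pool.Agent.Y961.NV
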